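import Pool.Agent.Q283.FG.Stm4
import Pool.Agent.Q265.FT.FLAW

/-!
# Project FG (helper283), job FLAW (helper182): the joint law of the 2-Selmer groups (assembly)
-/

set_option autoImplicit false

namespace Pool.Agent.Q182.FG

open NumberField IsDedekindDomain Filter Topology Finset WeierstrassCurve Module
open Pool.Agent.Q283.LQ (Sm Box Nest nS)
open Pool.Agent.Q7.LK
open Pool.Agent.Q283.FT (U2 om crv Rt twi df Cov HasN2 AX Gd LocP Dcl Ks)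
open Pool.Agent.Q283.FG
open Pool.Agent.Q150.EN (nest_mono fn ineq1)
open Pool.Agent.Q265.FT (rt_twi tabq tb_tabq sum_tab pow_two_four)
open Q44.JQ (lawc)

open Classical in
theorem flaw (hTBL : S_TBL) (hTPA : S_TPA) (hTUB : S_TUB) (hTRM : S_TRM) (hTRF : S_TRF) (hADJ : S_ADJ)
    (hBSE : S_BSE) (hG0 : S_G0) (hSXX : S_SXX) (hFUL : S_FUL) (hFIT : S_FIT)
    (hGDS : Pool.Agent.Q283.FT.S_GDS) (hLOK : S_LOK) (hDCE : S_DCE)
    (hCNT : S_CNT) (hUNQ : S_UNQ) : S_FLAW := by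
  intro F _ _ ζ hζ hsq t s hb κ _ e hRt hNF hExc hMt
  obtain ⟨y1, hy1⟩ := hBSE F ζ hζ t s hb
  choose y2 hy2 using fun l => hGDS F (e l) (hRt l)
  refine ⟨max y1 (univ.sup y2), fun y hy D0 hD0 => ?_⟩
  obtain ⟨f, u0, r0, π0, g0, hB0, hFrm0, hf, hfin⟩ := hy1 y (le_trans (le_max_left _ _) hy)
  obtain ⟨t₀, u, r, π, hB, hFrm, hu⟩ := hG0 F ζ hζ hsq t s hb y f u0 r0 π0 g0 hB0 hFrm0 hfin
  have hgd : ∀ l, ∀ v : HeightOneSpectrum (𝓞 F), ¬ Sm y v → Gd v (e l) := fun l =>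
    hy2 l y (le_trans (Finset.le_sup (mem_univ l)) (le_trans (le_max_right _ _) hy))
  obtain ⟨hd1, hd2, hd3⟩ := hDCE F ζ hζ y f t₀ u r π _ hB hu
  choose cl hcl using fun l => hd1 (e l) (hRt l) (hgd l)
  have hcls : ∀ l, cl l 1 ≠ cl l 2 ∧ cl l 0 ≠ cl l 1 ∧ cl l 0 + cl l 2 ≠ Pi.single t₀ 1 ∧
      ¬ (cl l 0 = cl l 2 ∧ cl l 1 + cl l 2 = Pi.single t₀ 1) := fun l =>
    hd2 (e l) (cl l) (hRt l) (hcl l) (hNF l) (hExc l)
  have hpair : ∀ l l', l ≠ l' → ¬ ∃ σ : Equiv.Perm (Fin 3), ∀ i j, i ≠ j →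
      cc t₀ (cl l) i j = cc t₀ (cl l') (σ i) (σ j) := fun l l' hl =>
    hd3 (e l) (e l') (cl l) (cl l') (hRt l) (hRt l') (hcl l) (hcl l') (hMt l l' hl)
  obtain ⟨⟨ψ, w⟩, hψ, _⟩ := hB.cls D0 hD0
  simp only at hψ
  choose 𝓛 hMem hOk using fun l => hLOK F ζ hζ t s hb y f t₀ u r π hB hFrm hu hf hfin (e l) (cl l) (hRt l) (hcl l)
    D0 ψ w hD0 hψ
  -- the number of the classes
  have key : ∀ (k : ℕ) (q : Fin k → HeightOneSpectrum (𝓞 F)), Function.Injective q → (∀ i, ¬ Sm y (q i)) →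
      ∀ τ : Tab 2 f k, Tb ζ u π τ q → ∀ D : F, FR y D0 q D → ∀ (l : κ) (N : ℕ),
      HasN2 (SR (twi D (e l))) N ↔ N = nSelG (djS t₀ (cl l) w (𝓛 l)) τ := by
    intro k q hq hqs τ hτ D hD l N
    have h1 : SR (twi D (e l)) = CondP y (fun v => AX v (twi D0 (e l))) (fun φ => RX φ (twi D0 (e l))) (e l) D := by
      funext a b
      exact propext (hFUL F (e l) (hRt l) y (hgd l) D0 D hD0 hD.1.ne
        ⟨⟨div_ne_zero hD.1.ne hD0, hD.1.loc⟩, hD.2⟩ a b)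
    rw [h1]
    exact hSXX F ζ hζ y f t₀ u r π hB hu (e l) (cl l) (hRt l) (hcl l) (fun v => AX v (twi D0 (e l)))
      (fun φ => RX φ (twi D0 (e l))) (𝓛 l) (hMem l) D0 ψ w hD0 hψ k q hq hqs τ hτ D hD N
  refine ⟨fun l => ((finrank (ZMod 2) (djS t₀ (cl l) w (𝓛 l)).pm : ℕ) : ZMod 2), ?_, ?_, ?_, ?_⟩
  · intro D hD hDl l
    obtain ⟨k, q, hq, hqs, hfit⟩ := hFIT F y D0 D hD0 hD hDl
    obtain ⟨n, hn, hpar⟩ := hTPA f (djS t₀ (cl l) w (𝓛 l)) ψ (hOk l) k (tabq ζ u π q)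
    have h1 : HasN2 (SR (twi D (e l))) (2 ^ n) := (key k q hq hqs _ (tb_tabq ζ u π q) D hfit l (2 ^ n)).2 hn.symm
    obtain ⟨_, h2⟩ := hCNT F (twi D (e l)) (rt_twi (hRt l) hD) (2 ^ n) h1
    obtain ⟨m, rfl⟩ := pow_two_four h2
    refine ⟨m, h1, Eq.trans ?_ hpar⟩
    have h3 : (2 : ZMod 2) = 0 := rfl
    push_cast
    rw [h3, add_zero]
  · intro rr ε hε
    have hAdj := hADJ f κ t₀ cl w 𝓛 hcls hpair
    obtain ⟨k0, hk0⟩ := hTBL f κ t₀ (fun l => djS t₀ (cl l) w (𝓛 l)) ψ (fun _ => rfl) hOk hAdj rr (ε / 2)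
      (by positivity)
    refine ⟨max k0 1, fun k hk => ?_⟩
    have hk1 : 1 ≤ k := (le_max_right _ _).trans hk
    have hT1 := hk0 k ((le_max_left _ _).trans hk)
    refine nest_mono k _ _ (fun X hX => ?_) (hTRF F ζ hζ y f u r π _ hB D0 ψ w hD0 hψ k hk1 (ε / 2) (by positivity))
    obtain ⟨hfinB, hpos, htab, hP⟩ := hX
    refine ⟨hfinB, hpos, ?_⟩
    have h1 := hP (fun τ => ∀ l, nSelG (djS t₀ (cl l) w (𝓛 l)) τ = 4 * 2 ^ rr l)
    have hset : {q ∈ (Box y X : Set (Fin k → HeightOneSpectrum (𝓞 F))) | (∃ D, FR y D0 q D) ∧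
          ∀ D, FR y D0 q D → ∀ l, HasN2 (SR (twi D (e l))) (2 ^ (rr l + 2))} =
        {q ∈ (Box y X : Set (Fin k → HeightOneSpectrum (𝓞 F))) | (∃ D, FR y D0 q D) ∧
            ∃ τ, Tb ζ u π τ q ∧ ∀ l, nSelG (djS t₀ (cl l) w (𝓛 l)) τ = 4 * 2 ^ rr l} := by
      ext q
      constructor
      · rintro ⟨hq, ⟨D, hD⟩, hall⟩
        refine ⟨hq, ⟨D, hD⟩, tabq ζ u π q, tb_tabq ζ u π q, fun l => ?_⟩
        have h2 := (key k q hq.1 (fun j => (hq.2 j).1) _ (tb_tabq ζ u π q) D hD l _).1 (hall D hD l)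
        rw [← h2, pow_add, mul_comm]
        norm_num
      · rintro ⟨hq, hD, τ, hτ, hall⟩
        refine ⟨hq, hD, fun D hD l => ?_⟩
        refine (key k q hq.1 (fun j => (hq.2 j).1) τ hτ D hD l _).2 ?_
        rw [hall l, pow_add, mul_comm]
        norm_num
    rw [hset]
    obtain ⟨N, hN⟩ : ∃ N : ℝ, N = ({q ∈ (Box y X : Set (Fin k → HeightOneSpectrum (𝓞 F))) |
      ∃ D, FR y D0 q D}.ncard : ℝ) := ⟨_, rfl⟩
    obtain ⟨T, hT⟩ : ∃ T : ℝ, T = ((univ.filter (fun τ : Tab 2 f k => ∑ j, (1 : ZMod 2) • τ.1 j = ψ)).card : ℝ) :=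
      ⟨_, rfl⟩
    have hTpos : 0 < T := by
      rw [hT, Nat.cast_pos, Finset.card_pos]
      refine ⟨(fun j => if j = ⟨0, hk1⟩ then ψ else 0, 0), ?_⟩
      rw [mem_filter]
      refine ⟨mem_univ _, ?_⟩
      simp only
      rw [Finset.sum_eq_single (⟨0, hk1⟩ : Fin k)]
      · rw [if_pos rfl, one_smul]
      · intro j _ hj
        rw [if_neg hj, smul_zero]
      · intro h
        exact absurd (mem_univ _) h
    simp only [fn] at hT hT1 h1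
    rw [← hN] at hpos h1 ⊢
    rw [← hT] at hT1 h1
    exact ineq1 hTpos hpos h1 hT1 (show ε / 2 + ε / 2 ≤ ε by linarith)
  · intro k q D D' hD hD'
    exact hUNQ F ζ hζ y f u r π _ hB D0 hD0 k q D D' hD hD'
  · obtain ⟨C, hC⟩ := hTUB f
    refine ⟨C + 1, fun l k hk1 => ?_⟩
    have hsum := sum_tab (k := k) ψ (fun τ => nSelG (djS t₀ (cl l) w (𝓛 l)) τ) C
      (fun φ => hC t₀ (cl l) w (𝓛 l) k φ)
    have h0 := hTRM F ζ hζ y f u r π _ hB D0 ψ w hD0 hψ k hk1 (fun τ => nSelG (djS t₀ (cl l) w (𝓛 l)) τ) C hsum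
    refine nest_mono k _ _ (fun X hX => ?_) h0
    intro B N hB1 hB2
    refine hX B N hB1 (fun q hq => ?_) (fun q hq => ?_)
    · obtain ⟨D, hD, _⟩ := hB2 q hq
      exact ⟨D, hD⟩
    · obtain ⟨D, hD, hN⟩ := hB2 q hq
      have hqB := hB1 q hq
      exact ⟨tabq ζ u π q, tb_tabq ζ u π q,
        (key k q hqB.1 (fun j => (hqB.2 j).1) _ (tb_tabq ζ u π q) D hD l _).1 hN⟩

end Pool.Agent.Q182.FG
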