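import Pool.Agent.Q283.FG.Stm2

set_option autoImplicit false

/-!
# Job ISO (project FG of helper283), helper182: isomorphisms of the modules of two curves
-/

namespace Pool.Agent.Q182.FG

open Finset Module Pool.Agent.Q283.FG Pool.Agent.Q7.LK
open Pool.Agent.Q283.FT (U2)

theorem dot_single {f : ℕ} (t : Fin f) (z : Fin f → ZMod 2) : dot (Pi.single t 1) z = z t := by
  unfold dot
  rw [Finset.sum_eq_single t]
  · simp
  · intro b _ hb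
    simp [Pi.single_eq_of_ne hb]
  · simp

theorem single_symm {f : ℕ} (t t₀ : Fin f) :
    (Pi.single t 1 : Fin f → ZMod 2) t₀ = (Pi.single t₀ 1 : Fin f → ZMod 2) t := by
  by_cases h : t₀ = t
  · subst h
    rfl
  · rw [Pi.single_eq_of_ne h, Pi.single_eq_of_ne (Ne.symm h)]

theorem opS_single {f : ℕ} (t₀ : Fin f) (c : Fin 3 → Fin f → ZMod 2) (w : Fin f → ZMod 2)
    (t : Fin f) (x : U2) :
    opS t₀ c w (Pi.single t 1) x =
      (c 2 t * (x.1 + x.2) + c 1 t * x.2 + w t * x.1 + (Pi.single t₀ 1 : Fin f → ZMod 2) t * x.1,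
      c 2 t * (x.1 + x.2) + c 0 t * x.1 + w t * x.2 +
        (Pi.single t₀ 1 : Fin f → ZMod 2) t * x.1) := by
  unfold opS
  rw [LinearMap.mk₂_apply]
  simp only [dot_single, single_symm t t₀]

theorem six : ∀ p1 p2 q1 q2 : ZMod 2, (p1, p2) ≠ (0, 0) → (q1, q2) ≠ (0, 0) → (p1, p2) ≠ (q1, q2) →
    (p1 = 1 ∧ p2 = 0 ∧ q1 = 0 ∧ q2 = 1) ∨ (p1 = 0 ∧ p2 = 1 ∧ q1 = 1 ∧ q2 = 0) ∨
    (p1 = 1 ∧ p2 = 1 ∧ q1 = 0 ∧ q2 = 1) ∨ (p1 = 1 ∧ p2 = 0 ∧ q1 = 1 ∧ q2 = 1) ∨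
    (p1 = 1 ∧ p2 = 1 ∧ q1 = 1 ∧ q2 = 0) ∨ (p1 = 0 ∧ p2 = 1 ∧ q1 = 1 ∧ q2 = 1) := by
  decide

/-- the equations at one place, for the matrix with the columns `p`, `q` -/
def Eqs (p1 p2 q1 q2 a b c a' b' c' s w : ZMod 2) : Prop :=
  (a + w + s) * p1 + (a + c + s) * q1 = a' * (p1 + p2) + b' * p2 + w * p1 + s * p1 ∧
  (a + w + s) * p2 + (a + c + s) * q2 = a' * (p1 + p2) + c' * p1 + w * p2 + s * p1 ∧
  (a + b) * p1 + (a + w) * q1 = a' * (q1 + q2) + b' * q2 + w * q1 + s * q1 ∧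
  (a + b) * p2 + (a + w) * q2 = a' * (q1 + q2) + c' * q1 + w * q2 + s * q1

instance (p1 p2 q1 q2 a b c a' b' c' s w : ZMod 2) :
    Decidable (Eqs p1 p2 q1 q2 a b c a' b' c' s w) := by
  unfold Eqs
  infer_instance

/-- the differences -/
def CC (a b c s : ZMod 2) (i j : Fin 3) : ZMod 2 :=
  if i = 0 ∧ j = 1 then a else if i = 0 ∧ j = 2 then b else if i = 1 ∧ j = 2 then c
  else if i = 1 ∧ j = 0 then a + s else if i = 2 ∧ j = 0 then b + s else c + s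

theorem cc_apply {f : ℕ} (t₀ : Fin f) (c : Fin 3 → Fin f → ZMod 2) (i j : Fin 3) (t : Fin f) :
    cc t₀ c i j t =
      CC (c 2 t) (c 1 t) (c 0 t) ((Pi.single t₀ 1 : Fin f → ZMod 2) t) i j := by
  unfold cc CC
  split_ifs <;> rfl

theorem e1 : ∀ s a b c a' b' c' w : ZMod 2, Eqs 1 0 0 1 a b c a' b' c' s w →
    c = c' ∧ b = b' ∧ a = a' := by
  decide

theorem e2 : ∀ s a b c a' b' c' w : ZMod 2, Eqs 0 1 1 0 a b c a' b' c' s w →
    c = b' ∧ b = c' ∧ a = a' + s := by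
  decide

theorem e3 : ∀ s a b c a' b' c' w : ZMod 2, Eqs 1 1 0 1 a b c a' b' c' s w →
    c = c' + s ∧ b = a' ∧ a = b' := by
  decide

theorem e4 : ∀ s a b c a' b' c' w : ZMod 2, Eqs 1 0 1 1 a b c a' b' c' s w →
    c = a' + s ∧ b = b' + s ∧ a = c' + s := by
  decide

theorem e5 : ∀ s a b c a' b' c' w : ZMod 2, Eqs 1 1 1 0 a b c a' b' c' s w →
    c = b' + s ∧ b = a' + s ∧ a = c' := by
  decide

theorem e6 : ∀ s a b c a' b' c' w : ZMod 2, Eqs 0 1 1 1 a b c a' b' c' s w →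
    c = a' ∧ b = c' + s ∧ a = b' + s := by
  decide

theorem d1 : ∀ s a b c : ZMod 2, ∀ i j : Fin 3, i ≠ j →
    CC a b c s i j = CC a b c s (![0, 1, 2] i) (![0, 1, 2] j) := by
  decide

theorem d2 : ∀ s a b c : ZMod 2, ∀ i j : Fin 3, i ≠ j →
    CC (a + s) c b s i j = CC a b c s (![1, 0, 2] i) (![1, 0, 2] j) := by
  decide

theorem d3 : ∀ s a b c : ZMod 2, ∀ i j : Fin 3, i ≠ j →
    CC b a (c + s) s i j = CC a b c s (![0, 2, 1] i) (![0, 2, 1] j) := by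
  decide

theorem d4 : ∀ s a b c : ZMod 2, ∀ i j : Fin 3, i ≠ j →
    CC (c + s) (b + s) (a + s) s i j = CC a b c s (![2, 1, 0] i) (![2, 1, 0] j) := by
  decide

theorem d5 : ∀ s a b c : ZMod 2, ∀ i j : Fin 3, i ≠ j →
    CC c (a + s) (b + s) s i j = CC a b c s (![1, 2, 0] i) (![1, 2, 0] j) := by
  decide

theorem d6 : ∀ s a b c : ZMod 2, ∀ i j : Fin 3, i ≠ j →
    CC (b + s) (c + s) a s i j = CC a b c s (![2, 0, 1] i) (![2, 0, 1] j) := by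
  decide

theorem fin {f : ℕ} (t₀ : Fin f) {c c' : Fin 3 → Fin f → ZMod 2} (σ : Fin 3 → Fin 3)
    (hs : Function.Injective σ)
    (h : ∀ t, ∀ i j, i ≠ j →
      CC (c 2 t) (c 1 t) (c 0 t) ((Pi.single t₀ 1 : Fin f → ZMod 2) t) i j =
        CC (c' 2 t) (c' 1 t) (c' 0 t) ((Pi.single t₀ 1 : Fin f → ZMod 2) t) (σ i) (σ j)) :
    ∃ σ : Equiv.Perm (Fin 3), ∀ i j, i ≠ j → cc t₀ c i j = cc t₀ c' (σ i) (σ j) := by
  refine ⟨Equiv.ofBijective σ (Finite.injective_iff_bijective.1 hs), fun i j hij => ?_⟩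
  funext t
  rw [cc_apply, cc_apply]
  exact h t i j hij

/-- Job ISO. -/
theorem iso : S_ISO := by
  rintro f t₀ c c' w ⟨g, hg⟩
  have lin : ∀ x : U2, g x = (x.1 * (g (1, 0)).1 + x.2 * (g (0, 1)).1,
      x.1 * (g (1, 0)).2 + x.2 * (g (0, 1)).2) := by
    intro x
    have h1 : x = x.1 • ((1, 0) : U2) + x.2 • ((0, 1) : U2) := by
      ext <;> simp
    conv_lhs => rw [h1, map_add, map_smul, map_smul]
    ext <;> simp
  have hp : ((g (1, 0)).1, (g (1, 0)).2) ≠ ((0, 0) : U2) := by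
    intro h
    have h1 : g (1, 0) = 0 := h
    rw [LinearEquiv.map_eq_zero_iff] at h1
    exact absurd h1 (by decide)
  have hq : ((g (0, 1)).1, (g (0, 1)).2) ≠ ((0, 0) : U2) := by
    intro h
    have h1 : g (0, 1) = 0 := h
    rw [LinearEquiv.map_eq_zero_iff] at h1
    exact absurd h1 (by decide)
  have hpq : ((g (1, 0)).1, (g (1, 0)).2) ≠ ((g (0, 1)).1, (g (0, 1)).2) := by
    intro h
    have h1 : g (1, 0) = g (0, 1) := h
    exact absurd (g.injective h1) (by decide)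
  have key : ∀ t, Eqs (g (1, 0)).1 (g (1, 0)).2 (g (0, 1)).1 (g (0, 1)).2 (c 2 t) (c 1 t) (c 0 t)
      (c' 2 t) (c' 1 t) (c' 0 t) ((Pi.single t₀ 1 : Fin f → ZMod 2) t) (w t) := by
    intro t
    have h1 := hg (Pi.single t 1) (1, 0)
    have h2 := hg (Pi.single t 1) (0, 1)
    rw [opS_single, opS_single] at h1 h2
    rw [lin, Prod.ext_iff] at h1 h2
    simp only [add_zero, zero_add, mul_one, mul_zero] at h1 h2
    exact ⟨h1.1, h1.2, h2.1, h2.2⟩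
  rcases six _ _ _ _ hp hq hpq with ⟨h1, h2, h3, h4⟩ | ⟨h1, h2, h3, h4⟩ | ⟨h1, h2, h3, h4⟩ |
    ⟨h1, h2, h3, h4⟩ | ⟨h1, h2, h3, h4⟩ | ⟨h1, h2, h3, h4⟩ <;> rw [h1, h2, h3, h4] at key
  · refine fin t₀ ![0, 1, 2] (by decide) fun t => ?_
    obtain ⟨k1, k2, k3⟩ := e1 _ _ _ _ _ _ _ _ (key t)
    rw [k1, k2, k3]
    exact d1 _ _ _ _
  · refine fin t₀ ![1, 0, 2] (by decide) fun t => ?_
    obtain ⟨k1, k2, k3⟩ := e2 _ _ _ _ _ _ _ _ (key t)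
    rw [k1, k2, k3]
    exact d2 _ _ _ _
  · refine fin t₀ ![0, 2, 1] (by decide) fun t => ?_
    obtain ⟨k1, k2, k3⟩ := e3 _ _ _ _ _ _ _ _ (key t)
    rw [k1, k2, k3]
    exact d3 _ _ _ _
  · refine fin t₀ ![2, 1, 0] (by decide) fun t => ?_
    obtain ⟨k1, k2, k3⟩ := e4 _ _ _ _ _ _ _ _ (key t)
    rw [k1, k2, k3]
    exact d4 _ _ _ _
  · refine fin t₀ ![1, 2, 0] (by decide) fun t => ?_
    obtain ⟨k1, k2, k3⟩ := e5 _ _ _ _ _ _ _ _ (key t)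
    rw [k1, k2, k3]
    exact d5 _ _ _ _
  · refine fin t₀ ![2, 0, 1] (by decide) fun t => ?_
    obtain ⟨k1, k2, k3⟩ := e6 _ _ _ _ _ _ _ _ (key t)
    rw [k1, k2, k3]
    exact d6 _ _ _ _

end Pool.Agent.Q182.FG
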