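import Pool.Agent.Q283.FG.Stm3
import Pool.Agent.Q64.FT.KUB

/-!
# Project FG (helper283), job KUB (helper182): the class of a sum of two points, with the signs
-/

set_option autoImplicit false

namespace Pool.Agent.Q182.FG

open WeierstrassCurve
open Pool.Agent.Q283.FG
open Pool.Agent.Q283.FT (Rt crv df)
open Pool.Agent.TH841.SH.D (Pt)
open Pool.Agent.Q64.FT (k0 k1 kp_eq kp_of sq_comb k0_ne k1_ne k0_add k1_add)

section

variable {F : Type} [Field F] {e : Fin 3 → F} {L : Type} [Field L] [Algebra F L]

/-- the class of a point -/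
theorem cx_iff (P : Pt (crv e) L) (a b : L) :
    Cx e L P a b ↔ a ≠ 0 ∧ b ≠ 0 ∧ IsSquare (a * k0 e L P) ∧ IsSquare (b * k1 e L P) := by
  have h01 : algebraMap F L (df e 1 * df e 2) =
      (algebraMap F L (e 0) - algebraMap F L (e 1)) * (algebraMap F L (e 0) - algebraMap F L (e 2)) := by
    simp only [df, Fin.isValue, Fin.reduceEq, if_false, if_true, map_mul, map_sub]
    ring
  have h02 : algebraMap F L (-(df e 0 * df e 2)) =
      (algebraMap F L (e 1) - algebraMap F L (e 0)) * (algebraMap F L (e 1) - algebraMap F L (e 2)) := by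
    simp only [df, Fin.isValue, Fin.reduceEq, if_false, if_true, map_mul, map_sub, map_neg]
    ring
  refine and_congr_right fun _ => and_congr_right fun _ => ?_
  rw [h01, h02]
  rcases P with _ | ⟨x, y, h⟩
  · have e0 : k0 e L (Affine.Point.zero : Pt (crv e) L) = 1 := rfl
    have e1 : k1 e L (Affine.Point.zero : Pt (crv e) L) = 1 := rfl
    rw [e0, e1, mul_one, mul_one]
    constructor
    · rintro (⟨_, ha, hb⟩ | ⟨x, y, h, hP, _⟩)
      · exact ⟨ha, hb⟩
      · exact absurd hP.symm (Affine.Point.some_ne_zero _)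
    · rintro ⟨ha, hb⟩
      exact Or.inl ⟨rfl, ha, hb⟩
  · have A0 : ((x ≠ algebraMap F L (e 0) ∧ IsSquare (a * (x - algebraMap F L (e 0)))) ∨
        (x = algebraMap F L (e 0) ∧ IsSquare (a *
          ((algebraMap F L (e 0) - algebraMap F L (e 1)) *
            (algebraMap F L (e 0) - algebraMap F L (e 2)))))) ↔
        IsSquare (a * k0 e L (Affine.Point.some x y h : Pt (crv e) L)) := by
      by_cases hx : x = algebraMap F L (e 0)
      · subst hx
        have e0 : k0 e L (Affine.Point.some (algebraMap F L (e 0)) y h : Pt (crv e) L) = _ := kp_eq h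
        rw [e0]
        constructor
        · rintro (h1 | h1)
          · exact absurd rfl h1.1
          · exact h1.2
        · intro h1
          exact Or.inr ⟨rfl, h1⟩
      · have e0 : k0 e L (Affine.Point.some x y h : Pt (crv e) L) = _ := kp_of h hx
        rw [e0]
        constructor
        · rintro (h1 | h1)
          · exact h1.2
          · exact absurd h1.1 hx
        · intro h1
          exact Or.inl ⟨hx, h1⟩
    have A1 : ((x ≠ algebraMap F L (e 1) ∧ IsSquare (b * (x - algebraMap F L (e 1)))) ∨
        (x = algebraMap F L (e 1) ∧ IsSquare (b *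
          ((algebraMap F L (e 1) - algebraMap F L (e 0)) *
            (algebraMap F L (e 1) - algebraMap F L (e 2)))))) ↔
        IsSquare (b * k1 e L (Affine.Point.some x y h : Pt (crv e) L)) := by
      by_cases hx : x = algebraMap F L (e 1)
      · subst hx
        have e0 : k1 e L (Affine.Point.some (algebraMap F L (e 1)) y h : Pt (crv e) L) = _ := kp_eq h
        rw [e0]
        constructor
        · rintro (h1 | h1)
          · exact absurd rfl h1.1
          · exact h1.2
        · intro h1
          exact Or.inr ⟨rfl, h1⟩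
      · have e0 : k1 e L (Affine.Point.some x y h : Pt (crv e) L) = _ := kp_of h hx
        rw [e0]
        constructor
        · rintro (h1 | h1)
          · exact h1.2
          · exact absurd h1.1 hx
        · intro h1
          exact Or.inl ⟨hx, h1⟩
    rw [← A0, ← A1]
    constructor
    · rintro (⟨hP, _⟩ | ⟨x', y', h', hP, h1, h2⟩)
      · exact absurd hP (Affine.Point.some_ne_zero _)
      · obtain ⟨rfl, rfl⟩ := Affine.Point.some.inj hP
        exact ⟨h1, h2⟩
    · rintro ⟨h1, h2⟩
      exact Or.inr ⟨x, y, h, rfl, h1, h2⟩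

end

/-- JOB KUB -/
theorem kub (_hKUA : S_KUA) : S_KUB := by
  intro F _ _ e he L _ _ P Q a b a' b' h1 h2
  rw [cx_iff] at h1 h2 ⊢
  obtain ⟨ha, hb, h3, h4⟩ := h1
  obtain ⟨ha', hb', h5, h6⟩ := h2
  exact ⟨mul_ne_zero ha ha', mul_ne_zero hb hb',
    sq_comb (k0_ne he P) (k0_ne he Q) h3 h5 (k0_add he P Q),
    sq_comb (k1_ne he P) (k1_ne he Q) h4 h6 (k1_add he P Q)⟩

end Pool.Agent.Q182.FG
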